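import Pool.Agent.R573.CU.Lift

/-!
# The lifted objective is recognised by a deterministic parity automaton
-/

set_option autoImplicit false

namespace Pool.Agent.R573.CU

open Filter

variable {S : Type} {k : ℕ}

/-- The largest value that occurs infinitely often is even. -/
def MaxEven (f : ℕ → ℕ) : Prop :=
  ∃ d, Even d ∧ (∃ᶠ n in atTop, f n = d) ∧ ∀ᶠ n in atTop, f n ≤ d

theorem maxEven_shift (f : ℕ → ℕ) (T : ℕ) : MaxEven (fun n => f (n + T)) ↔ MaxEven f := by
  unfold MaxEven
  constructor
  · rintro ⟨d, hd, h1, h2⟩
    refine ⟨d, hd, ?_, ?_⟩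
    · rw [frequently_atTop] at h1 ⊢
      intro N
      obtain ⟨n, hn, h⟩ := h1 N
      exact ⟨n + T, by omega, h⟩
    · rw [eventually_atTop] at h2 ⊢
      obtain ⟨N, hN⟩ := h2
      refine ⟨N + T, fun n hn => ?_⟩
      have h3 : f (n - T + T) ≤ d := hN (n - T) (by omega)
      rwa [Nat.sub_add_cancel (by omega)] at h3
  · rintro ⟨d, hd, h1, h2⟩
    refine ⟨d, hd, ?_, ?_⟩
    · rw [frequently_atTop] at h1 ⊢
      intro N
      obtain ⟨n, hn, h⟩ := h1 (N + T)
      refine ⟨n - T, by omega, ?_⟩
      show f (n - T + T) = d
      rwa [Nat.sub_add_cancel (by omega)]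
    · rw [eventually_atTop] at h2 ⊢
      obtain ⟨N, hN⟩ := h2
      exact ⟨N, fun n hn => hN (n + T) (by omega)⟩

theorem accepts_iff (B : Parity S) (q : B.Q) (w : ℕ → S) :
    B.Accepts q w ↔ MaxEven fun n => B.prio (B.run q w n) (w n) := Iff.rfl

theorem run_cons (B : Parity S) (q : B.Q) (c : S) (z : ℕ → S) (n : ℕ) :
    B.run q (cons c z) (n + 1) = B.run (B.step q c) z n := by
  induction n with
  | zero => rfl
  | succ n ih =>
    show B.step (B.run q (cons c z) (n + 1)) (z n) = B.step (B.run (B.step q c) z n) (z n)
    rw [ih]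

theorem accepts_cons (B : Parity S) (q : B.Q) (c : S) (z : ℕ → S) :
    B.Accepts q (cons c z) ↔ B.Accepts (B.step q c) z := by
  rw [accepts_iff, accepts_iff, ← maxEven_shift _ 1]
  have h : (fun n => B.prio (B.run q (cons c z) (n + 1)) (cons c z (n + 1))) =
      fun n => B.prio (B.run (B.step q c) z n) (z n) := by
    funext n
    rw [run_cons]
    rfl
  rw [h]

/-- The language of a state. -/
def Parity.lang (B : Parity S) (q : B.Q) : Set (ℕ → S) := {z | B.Accepts q z}

theorem der_lang (B : Parity S) (q : B.Q) (c : S) : der c (B.lang q) = B.lang (B.step q c) := by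
  ext z
  exact accepts_cons B q c z

theorem resid_lang (B : Parity S) (q : B.Q) (u : List S) :
    resid (B.lang q) u = B.lang (u.foldl B.step q) := by
  induction u generalizing q with
  | nil => rfl
  | cons a u ih =>
    show resid (der a (B.lang q)) u = _
    rw [der_lang, ih]
    rfl

theorem finite_resid {W : Set (ℕ → S)} (h : OmegaRegular W) : (Set.range (resid W)).Finite := by
  obtain ⟨B, hfin, hB⟩ := h
  have hW : W = B.lang B.start := Set.ext hB
  refine (Set.finite_range B.lang).subset ?_
  rintro _ ⟨u, rfl⟩
  exact ⟨u.foldl B.step B.start, by rw [hW, resid_lang]⟩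

section

open Classical

variable (A : Memory S k) (W : Set (ℕ → S)) (B : Parity S) (tb : Fin k → B.Q) (D : ℕ)

/-- The parity automaton for the lifted objective. -/
noncomputable def liftAut : Parity (Fin k × S) where
  Q := Option (Fin k × B.Q)
  start := if W.Nonempty then some (A.start, B.start) else none
  step := fun x a =>
    match x with
    | none => none
    | some (m, b) =>
      if a.1 ≤ m ∧ (B.lang (B.step (if a.1 = m then b else tb a.1) a.2)).Nonempty ∧
        (a.1 = m ∨ (top A W a.1).Nonempty)
      then some (A.upd a.1 a.2, B.step (if a.1 = m then b else tb a.1) a.2) else none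
  prio := fun x a =>
    match x with
    | none => 1
    | some (m, b) => if a.1 = m then B.prio b a.2 else D

variable {A W B tb D}

theorem lift_step {m : Fin k} {b : B.Q} {a : Fin k × S} :
    (liftAut A W B tb D).step (some (m, b)) a =
      if a.1 ≤ m ∧ (B.lang (B.step (if a.1 = m then b else tb a.1) a.2)).Nonempty ∧
        (a.1 = m ∨ (top A W a.1).Nonempty)
      then some (A.upd a.1 a.2, B.step (if a.1 = m then b else tb a.1) a.2) else none := rfl

theorem lift_prio {m : Fin k} {b : B.Q} {a : Fin k × S} :
    (liftAut A W B tb D).prio (some (m, b)) a = if a.1 = m then B.prio b a.2 else D := rfl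

/-- The word is fine up to the time `t`. -/
def Good (A : Memory S k) (W : Set (ℕ → S)) (w : ℕ → Fin k × S) (t : ℕ) : Prop :=
  (∀ s, s < t → (w s).1 ≤ (pos A W (A.start, W) w s).1) ∧
    ∀ s, s ≤ t → (pos A W (A.start, W) w s).2.Nonempty

theorem lift_run (hW : W = B.lang B.start)
    (htb : ∀ m, (top A W m).Nonempty → B.lang (tb m) = top A W m) (w : ℕ → Fin k × S) (t : ℕ) :
    (Good A W w t → ∃ b, (liftAut A W B tb D).run (liftAut A W B tb D).start w t =
      some ((pos A W (A.start, W) w t).1, b) ∧ B.lang b = (pos A W (A.start, W) w t).2) ∧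
    (¬ Good A W w t → (liftAut A W B tb D).run (liftAut A W B tb D).start w t = none) := by
  induction t with
  | zero =>
    constructor
    · intro h
      have h1 : W.Nonempty := h.2 0 le_rfl
      exact ⟨B.start, if_pos h1, hW.symm⟩
    · intro h
      have h1 : ¬ W.Nonempty := by
        intro h2
        refine h ⟨fun s hs => absurd hs (Nat.not_lt_zero _), fun s hs => ?_⟩
        have h3 : s = 0 := by omega
        rw [h3]
        exact h2
      exact if_neg h1
  | succ t ih =>
    obtain ⟨ih1, ih2⟩ := ih
    have hrun : (liftAut A W B tb D).run (liftAut A W B tb D).start w (t + 1) =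
      (liftAut A W B tb D).step ((liftAut A W B tb D).run (liftAut A W B tb D).start w t) (w t) :=
      rfl
    by_cases hg : Good A W w t
    · obtain ⟨b, hb, hlb⟩ := ih1 hg
      rw [hrun, hb, lift_step]
      have hp : pos A W (A.start, W) w (t + 1) = (A.upd (w t).1 (w t).2, der (w t).2
          (if (w t).1 = (pos A W (A.start, W) w t).1 then (pos A W (A.start, W) w t).2 else
            top A W (w t).1)) := rfl
      -- the residual is the language of the new state
      have hl : ((w t).1 = (pos A W (A.start, W) w t).1 ∨ (top A W (w t).1).Nonempty) →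
          B.lang (B.step (if (w t).1 = (pos A W (A.start, W) w t).1 then b else tb (w t).1)
            (w t).2) = (pos A W (A.start, W) w (t + 1)).2 := by
        intro h
        rw [hp, ← der_lang]
        by_cases h1 : (w t).1 = (pos A W (A.start, W) w t).1
        · rw [if_pos h1, if_pos h1, hlb]
        · rw [if_neg h1, if_neg h1, htb _ (h.resolve_left h1)]
      constructor
      · intro h
        have h1 : (w t).1 ≤ (pos A W (A.start, W) w t).1 := h.1 t (Nat.lt_succ_self t)
        have h2 : (pos A W (A.start, W) w (t + 1)).2.Nonempty := h.2 (t + 1) le_rfl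
        have h3 : (w t).1 = (pos A W (A.start, W) w t).1 ∨ (top A W (w t).1).Nonempty := by
          by_cases h4 : (w t).1 = (pos A W (A.start, W) w t).1
          · exact Or.inl h4
          · right
            rw [hp, if_neg h4] at h2
            obtain ⟨z, hz⟩ := h2
            exact ⟨_, hz⟩
        have h5 := hl h3
        rw [if_pos ⟨h1, by rw [h5]; exact h2, h3⟩]
        exact ⟨_, rfl, h5⟩
      · intro h
        rw [if_neg]
        rintro ⟨h1, h2, h3⟩
        refine h ⟨fun s hs => ?_, fun s hs => ?_⟩
        · rcases Nat.lt_succ_iff_lt_or_eq.1 hs with h4 | h4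
          · exact hg.1 s h4
          · rw [h4]
            exact h1
        · rcases Nat.le_succ_iff.1 hs with h4 | h4
          · exact hg.2 s h4
          · rw [h4, ← hl h3]
            exact h2
    · constructor
      · intro h
        exact absurd ⟨fun s hs => h.1 s (by omega), fun s hs => h.2 s (by omega)⟩ hg
      · intro _
        rw [hrun, ih2 hg]
        rfl

theorem omegaRegular_lifted [Finite S] (hreg : OmegaRegular W) (hA : Works OnePlayer W A) :
    OmegaRegular (lifted A W) := by
  have hfin := finite_resid hreg
  obtain ⟨B, hBfin, hB⟩ := hreg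
  have hW : W = B.lang B.start := Set.ext hB
  have htop : ∀ m : Fin k, ∃ b : B.Q, (top A W m).Nonempty → B.lang b = top A W m := by
    intro m
    by_cases hm : (top A W m).Nonempty
    · obtain ⟨u, -, hu⟩ := reach_top hA hfin hm
      refine ⟨u.foldl B.step B.start, fun _ => ?_⟩
      rw [← resid_lang, ← hW]
      exact hu.symm
    · exact ⟨B.start, fun h => absurd h hm⟩
  choose tb htb using htop
  -- a bound of the priorities
  have hbd : ∃ D, Even D ∧ ∀ b c, B.prio b c ≤ D := by
    have h1 : (Set.range fun x : B.Q × S => B.prio x.1 x.2).Finite := Set.finite_range _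
    obtain ⟨M, hM⟩ := h1.bddAbove
    exact ⟨2 * M, ⟨M, by omega⟩, fun b c => (hM ⟨(b, c), rfl⟩).trans (by omega)⟩
  obtain ⟨D, hDe, hD⟩ := hbd
  refine ⟨liftAut A W B tb D, inferInstanceAs (Finite (Option (Fin k × B.Q))), fun w => ?_⟩
  have hrun := lift_run (D := D) hW htb w
  by_cases hgood : ∀ t, Good A W w t
  · have hb : ∀ t, ∃ b, (liftAut A W B tb D).run (liftAut A W B tb D).start w t = some ((pos A W (A.start, W) w t).1, b) ∧
        B.lang b = (pos A W (A.start, W) w t).2 := fun t => (hrun t).1 (hgood t)
    choose b hb1 hb2 using hb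
    have hle : ∀ t, (w t).1 ≤ (pos A W (A.start, W) w t).1 := fun t =>
      (hgood (t + 1)).1 t (Nat.lt_succ_self t)
    have hprio : ∀ t, (liftAut A W B tb D).prio ((liftAut A W B tb D).run (liftAut A W B tb D).start w t) (w t) =
        if (w t).1 = (pos A W (A.start, W) w t).1 then B.prio (b t) (w t).2 else D := by
      intro t
      rw [hb1]
      rfl
    have hstep : ∀ t, (w t).1 = (pos A W (A.start, W) w t).1 →
        b (t + 1) = B.step (b t) (w t).2 := by
      intro t ht
      have h1 : (liftAut A W B tb D).run (liftAut A W B tb D).start w (t + 1) = (liftAut A W B tb D).step ((liftAut A W B tb D).run (liftAut A W B tb D).start w t) (w t) := rfl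
      rw [hb1, hb1, lift_step] at h1
      split_ifs at h1 with h2
      exact congrArg Prod.snd (Option.some.inj h1)
    -- the tail from a time after which the labels are consistent
    have htail : ∀ T, (∀ t, T ≤ t → (w t).1 = (pos A W (A.start, W) w t).1) →
        ((liftAut A W B tb D).Accepts (liftAut A W B tb D).start w ↔ (fun n => (w (n + T)).2) ∈ (pos A W (A.start, W) w T).2) := by
      intro T hT
      rw [accepts_iff, ← maxEven_shift _ T, ← hb2 T]
      show _ ↔ B.Accepts (b T) _
      rw [accepts_iff]
      have h1 : ∀ n, b (n + T) = B.run (b T) (fun n => (w (n + T)).2) n := by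
        intro n
        induction n with
        | zero => rw [Nat.zero_add]; rfl
        | succ n ih =>
          have h2 : n + 1 + T = n + T + 1 := by omega
          rw [h2, hstep (n + T) (hT _ (by omega)), ih]
          rfl
      have h3 : (fun n => (liftAut A W B tb D).prio ((liftAut A W B tb D).run (liftAut A W B tb D).start w (n + T)) (w (n + T))) =
          fun n => B.prio (B.run (b T) (fun n => (w (n + T)).2) n) (w (n + T)).2 := by
        funext n
        rw [hprio, if_pos (hT _ (by omega)), h1]
      rw [h3]
    by_cases hfr : ∃ᶠ t in atTop, (w t).1 < (pos A W (A.start, W) w t).1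
    · constructor
      · intro _
        refine ⟨D, hDe, hfr.mono fun t ht => ?_, Eventually.of_forall fun t => ?_⟩
        · rw [hprio, if_neg (ne_of_lt ht)]
        · rw [hprio]
          split_ifs
          · exact hD _ _
          · exact le_rfl
      · intro _
        exact ⟨fun t => ⟨hle t, (hgood t).2 t le_rfl⟩, Or.inl hfr⟩
    · have hfr' := hfr
      rw [not_frequently, eventually_atTop] at hfr'
      obtain ⟨T, hT⟩ := hfr'
      have hT' : ∀ t, T ≤ t → (w t).1 = (pos A W (A.start, W) w t).1 := fun t ht =>
        (lt_or_eq_of_le (hle t)).resolve_left (hT t ht)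
      rw [htail T hT']
      constructor
      · rintro ⟨-, h1 | ⟨T', h1, h2⟩⟩
        · exact absurd h1 hfr
        · rw [← htail T hT', htail T' h1]
          exact h2
      · intro h
        exact ⟨fun t => ⟨hle t, (hgood t).2 t le_rfl⟩, Or.inr ⟨T, hT', h⟩⟩
  · constructor
    · intro h
      exact absurd (fun t => ⟨fun s _ => (h.1 s).1, fun s _ => (h.1 s).2⟩) hgood
    · rintro ⟨d, hd, hfreq, -⟩
      exfalso
      push Not at hgood
      obtain ⟨T, hT⟩ := hgood
      have hnone : ∀ t, T ≤ t → (liftAut A W B tb D).run (liftAut A W B tb D).start w t = none := by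
        intro t ht
        refine (hrun t).2 fun hg => hT ⟨fun s hs => hg.1 s (by omega), fun s hs =>
          hg.2 s (by omega)⟩
      obtain ⟨t, ht, htd⟩ := (frequently_atTop.1 hfreq) T
      rw [hnone t ht] at htd
      change 1 = d at htd
      rw [← htd] at hd
      exact absurd hd (by decide)

end

end Pool.Agent.R573.CU
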