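import Mathlib

/-!
# Games on graphs and chromatic memory for uniformly winning strategies: definitions
-/

set_option autoImplicit false

namespace Pool.Agent.R573.CU

open Filter

/-- A game over the alphabet `S`: a possibly infinite directed graph with edges coloured by `S` in
which every vertex has an outgoing edge, and the set of the vertices owned by Eve (the others are
owned by Adam). -/
structure Game (S : Type) where
  /-- the vertices -/
  V : Type
  /-- `edge v c w`: there is an edge from `v` to `w` with the colour `c` -/
  edge : V → S → V → Prop
  total : ∀ v, ∃ c w, edge v c w
  /-- the vertices owned by Eve -/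
  eve : V → Prop

/-- An infinite play, given by its vertices and its colours. -/
structure Play {S : Type} (G : Game S) where
  /-- the vertices -/
  v : ℕ → G.V
  /-- the colours of the edges -/
  c : ℕ → S
  step : ∀ n, G.edge (v n) (c n) (v (n + 1))

/-- A strategy for Eve, without any restriction: it chooses an outgoing edge (given by its colour
and its target) for each vertex of Eve, depending on the moves made so far (the list of the pairs
of a vertex and of the colour of the edge which was taken there). -/
structure Strategy {S : Type} (G : Game S) where
  /-- the chosen edge -/
  move : List (G.V × S) → G.V → S × G.V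
  legal : ∀ h v, G.eve v → G.edge v (move h v).1 (move h v).2

/-- The play follows the strategy. -/
def Strategy.Follows {S : Type} {G : Game S} (σ : Strategy G) (p : Play G) : Prop :=
  ∀ n, G.eve (p.v n) →
    (p.c n, p.v (n + 1)) = σ.move ((List.range n).map fun i => (p.v i, p.c i)) (p.v n)

/-- Eve can win from the vertex `x`: she has a strategy such that each play which starts in `x` and
follows it has its word of colours in the objective `W`. -/
def Wins {S : Type} (G : Game S) (W : Set (ℕ → S)) (x : G.V) : Prop :=
  ∃ σ : Strategy G, ∀ p : Play G, p.v 0 = x → σ.Follows p → p.c ∈ W

/-- A chromatic memory with `k` states: an initial state and an update function, which depends only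
on the colour just seen. -/
structure Memory (S : Type) (k : ℕ) where
  /-- the initial state -/
  start : Fin k
  /-- the update function -/
  upd : Fin k → S → Fin k

/-- The state of the memory during a play with the colours `c`. -/
def Memory.state {S : Type} {k : ℕ} (A : Memory S k) (c : ℕ → S) : ℕ → Fin k
  | 0 => A.start
  | n + 1 => A.upd (A.state c n) (c n)

/-- A chromatic strategy for Eve with `k` memory states: a chromatic memory and a choice of an
outgoing edge for each vertex of Eve and each memory state. -/
structure Chromatic {S : Type} (G : Game S) (k : ℕ) where
  /-- the memory -/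
  mem : Memory S k
  /-- the chosen edge -/
  choice : G.V → Fin k → S × G.V
  legal : ∀ v m, G.eve v → G.edge v (choice v m).1 (choice v m).2

/-- The play follows the chromatic strategy. -/
def Chromatic.Follows {S : Type} {G : Game S} {k : ℕ} (s : Chromatic G k) (p : Play G) : Prop :=
  ∀ n, G.eve (p.v n) → (p.c n, p.v (n + 1)) = s.choice (p.v n) (s.mem.state p.c n)

/-- The chromatic strategy wins from every vertex from which Eve can win. -/
def Chromatic.Optimal {S : Type} {G : Game S} {k : ℕ} (s : Chromatic G k)
    (W : Set (ℕ → S)) : Prop :=
  ∀ p : Play G, Wins G W (p.v 0) → s.Follows p → p.c ∈ W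

/-- In every game of the class `C`, Eve has a chromatic strategy with `k` memory states which wins
from every vertex from which she can win with the objective `W`. -/
def Suffices {S : Type} (C : Game S → Prop) (W : Set (ℕ → S)) (k : ℕ) : Prop :=
  ∀ G : Game S, C G → ∃ s : Chromatic G k, s.Optimal W

/-- The same with one memory `A` for all the games of the class `C`. -/
def Works {S : Type} {k : ℕ} (C : Game S → Prop) (W : Set (ℕ → S)) (A : Memory S k) : Prop :=
  ∀ G : Game S, C G → ∃ s : Chromatic G k, s.mem = A ∧ s.Optimal W

/-- The chromatic memory of `W` over the class `C` of games is `k`. -/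
def IsChromaticMemory {S : Type} (C : Game S → Prop) (W : Set (ℕ → S)) (k : ℕ) : Prop :=
  IsLeast {k | Suffices C W k} k

/-- One-player games: Eve owns every vertex. -/
def OnePlayer {S : Type} (G : Game S) : Prop := ∀ v, G.eve v

/-- All the games. -/
def AllGames {S : Type} (_ : Game S) : Prop := True

/-- A deterministic parity automaton, with priorities on the transitions. -/
structure Parity (S : Type) where
  /-- the states -/
  Q : Type
  /-- the initial state -/
  start : Q
  /-- the transition function -/
  step : Q → S → Q
  /-- the priorities -/
  prio : Q → S → ℕ

/-- The run of the automaton from a state on an infinite word. -/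
def Parity.run {S : Type} (A : Parity S) (q : A.Q) (w : ℕ → S) : ℕ → A.Q
  | 0 => q
  | n + 1 => A.step (A.run q w n) (w n)

/-- The automaton accepts from the state `q` if the largest priority that occurs infinitely often
is even. -/
def Parity.Accepts {S : Type} (A : Parity S) (q : A.Q) (w : ℕ → S) : Prop :=
  ∃ d, Even d ∧ (∃ᶠ n in atTop, A.prio (A.run q w n) (w n) = d) ∧
    ∀ᶠ n in atTop, A.prio (A.run q w n) (w n) ≤ d

/-- The objective is recognised by a deterministic parity automaton with finitely many states. -/
def OmegaRegular {S : Type} (W : Set (ℕ → S)) : Prop :=
  ∃ A : Parity S, Finite A.Q ∧ ∀ w, w ∈ W ↔ A.Accepts A.start w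

end Pool.Agent.R573.CU
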