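import Pool.Agent.R573.CU.Union

/-!
# The lifted objective is positional over one-player games
-/

set_option autoImplicit false

namespace Pool.Agent.R573.CU

open Filter

variable {S : Type} {k : ℕ} {W : Set (ℕ → S)} {A : Memory S k}

theorem reach_finite (A : Memory S k) (hfin : (Set.range (resid W)).Finite) :
    {p | Reach A W p}.Finite := by
  refine (Set.finite_univ.prod hfin).subset ?_
  rintro ⟨m, q⟩ ⟨u, -, hu⟩
  exact ⟨trivial, u, hu.symm⟩

theorem Reach.next_same {p : Fin k × Set (ℕ → S)} (hp : Reach A W p) (c : S) :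
    Reach A W (A.upd p.1 c, der c p.2) := by
  obtain ⟨u, hu, hq⟩ := hp
  exact ⟨u ++ [c], by rw [Memory.run_append, hu], by rw [← der_resid, hq]⟩

/-- The top of a memory state is the largest residual with this state. -/
theorem reach_top (hA : Works OnePlayer W A) (hfin : (Set.range (resid W)).Finite) {m : Fin k}
    (hne : (top A W m).Nonempty) : Reach A W (m, top A W m) := by
  have hR : {q | Reach A W (m, q)}.Finite :=
    hfin.subset fun q ⟨u, _, hu⟩ => ⟨u, hu.symm⟩
  have hRne : {q | Reach A W (m, q)}.Nonempty := by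
    obtain ⟨z, u, hu, -⟩ := hne
    exact ⟨resid W u, u, hu, rfl⟩
  obtain ⟨q, hq⟩ := hR.exists_maximal hRne
  have hmax : ∀ q', Reach A W (m, q') → q' ⊆ q := by
    intro q' hq'
    obtain ⟨u, hu, hqu⟩ := hq.prop
    obtain ⟨u', hu', hqu'⟩ := hq'
    dsimp only at hu hqu hu' hqu'
    rcases chain hA (hu.trans hu'.symm) with h | h
    · rw [← hqu, ← hqu'] at h
      exact hq.le_of_ge ⟨u', hu', hqu'⟩ h
    · rw [hqu, hqu']
      exact h
  have htop : top A W m = q := by
    apply Set.Subset.antisymm
    · rintro z ⟨u, hu, hz⟩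
      exact hmax (resid W u) ⟨u, hu, rfl⟩ hz
    · exact Reach.subset_top hq.prop
  rw [htop]
  exact hq.prop

/-- A nonempty family of reachable positions has a least element. -/
theorem exists_least (hA : Works OnePlayer W A) (hfin : (Set.range (resid W)).Finite)
    {P : Fin k × Set (ℕ → S) → Prop} (hP : ∀ p, P p → Reach A W p) (hne : ∃ p, P p) :
    ∃ p, P p ∧ ∀ p', P p' → le p p' := by
  have hT : {p | P p}.Finite := (reach_finite A hfin).subset hP
  obtain ⟨p₀, hp₀, hmin⟩ := Set.exists_min_image {p | P p} Prod.fst hT hne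
  have hT' : {q | P (p₀.1, q)}.Finite := by
    refine (hfin.subset ?_ : {q | P (p₀.1, q)}.Finite)
    intro q hq
    obtain ⟨u, -, hu⟩ := hP _ hq
    exact ⟨u, hu.symm⟩
  obtain ⟨q, hq⟩ := hT'.exists_minimal ⟨p₀.2, hp₀⟩
  refine ⟨(p₀.1, q), hq.prop, fun p' hp' => ?_⟩
  rcases lt_or_eq_of_le (hmin p' hp') with h | h
  · exact Or.inl h
  · refine Or.inr ⟨h, ?_⟩
    obtain ⟨m', q'⟩ := p'
    dsimp only at h ⊢
    rw [← h] at hp'
    obtain ⟨u, hu, hqu⟩ := hP _ hq.prop
    obtain ⟨u', hu', hqu'⟩ := hP _ hp'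
    dsimp only at hu hqu hu' hqu'
    rcases chain hA (hu.trans hu'.symm) with h2 | h2
    · rw [hqu, hqu']
      exact h2
    · rw [← hqu, ← hqu'] at h2
      exact hq.le_of_le hp' h2

theorem suffices_lifted (hA : Works OnePlayer W A) (hfin : (Set.range (resid W)).Finite) :
    Suffices OnePlayer (lifted A W) 1 := by
  classical
  intro G hG
  -- the positions from which a vertex wins
  let P : G.V → Fin k × Set (ℕ → S) → Prop := fun x p =>
    Reach A W p ∧ ∃ π : Play G, π.v 0 = x ∧ Acc A W p π.c
  let X := {x : G.V // ∃ p, P x p}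
  have hval : ∀ x : X, ∃ p, P x.1 p ∧ ∀ p', P x.1 p' → le p p' := fun x =>
    exists_least hA hfin (fun p hp => hp.1) x.2
  choose val hval1 hval2 using hval
  choose u hu1 hu2 using fun x : X => (hval1 x).1
  have hne : ∀ x : X, (val x).2.Nonempty := by
    intro x
    obtain ⟨-, π, -, hπ⟩ := hval1 x
    exact (hπ.1 0).2
  -- the first letter of a winning word from the least position
  have hfirst : ∀ (x : X) (π : Play G), π.v 0 = x.1 → Acc A W (val x) π.c →
      (π.c 0).1 = (val x).1 := by
    intro x π hπ0 hπ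
    by_contra hcon
    have hlt : (π.c 0).1 < (val x).1 := lt_of_le_of_ne (hπ.1 0).1 hcon
    obtain ⟨h1, h2⟩ := hπ.of_drop hlt
    rcases hval2 x ((π.c 0).1, top A W (π.c 0).1) ⟨reach_top hA hfin h1, π, hπ0, h2⟩ with h | h
    · exact absurd (lt_trans hlt h) (lt_irrefl _)
    · exact hcon h.1.symm
  -- the shifted play
  let sh : Play G → ℕ → Play G := fun π t =>
    { v := fun n => π.v (n + t)
      c := CU.drop t π.c
      step := fun n => by
        have := π.step (n + t)
        rw [Nat.add_right_comm] at this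
        exact this }
  -- the next vertex of a play
  have hnext : ∀ (x : X) (π : Play G), π.v 0 = x.1 → Acc A W (val x) π.c →
      ∃ y : X, y.1 = π.v 1 ∧ G.edge x.1 ((val x).1, (π.c 0).2) y.1 ∧
        (der (π.c 0).2 (val x).2).Nonempty ∧
        le (val y) (A.upd (val x).1 (π.c 0).2, der (π.c 0).2 (val x).2) ∧
        pos A W (val x) π.c 1 = (A.upd (val x).1 (π.c 0).2, der (π.c 0).2 (val x).2) := by
    intro x π hπ0 hπ
    have h1 := hfirst x π hπ0 hπ
    have h2 : pos A W (val x) π.c 1 =
        (A.upd (val x).1 (π.c 0).2, der (π.c 0).2 (val x).2) := by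
      show (A.upd (π.c 0).1 (π.c 0).2, der (π.c 0).2 (if (π.c 0).1 = (val x).1 then (val x).2 else
        top A W (π.c 0).1)) = _
      rw [if_pos h1, h1]
    have h3 : P (π.v 1) (A.upd (val x).1 (π.c 0).2, der (π.c 0).2 (val x).2) := by
      refine ⟨(hval1 x).1.next_same _, sh π 1, ?_, ?_⟩
      · show π.v (0 + 1) = π.v 1
        rfl
      · rw [← h2]
        exact hπ.drop 1
    refine ⟨⟨π.v 1, _, h3⟩, rfl, ?_, ?_, hval2 ⟨π.v 1, _, h3⟩ _ h3, h2⟩
    · have h4 := π.step 0
      rw [hπ0] at h4
      have h5 : π.c 0 = ((val x).1, (π.c 0).2) := Prod.ext h1 rfl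
      rw [h5] at h4
      exact h4
    · have h6 := (hπ.1 1).2
      rw [h2] at h6
      exact h6
  -- the moves and the exits of the auxiliary game
  let E : X → S → X → Prop := fun x c y => G.edge x.1 ((val x).1, c) y.1 ∧
    A.upd (val x).1 c = (val y).1 ∧ (val y).2 ⊆ der c (val x).2
  let F : X → Set (ℕ → S) := fun x => {z | z ∉ (val x).2 ∨ (z ∈ (val x).2 ∧
    ∃ y : X, G.edge x.1 ((val x).1, z 0) y.1 ∧ (val y).1 < A.upd (val x).1 (z 0))}
  have htot : ∀ x, (∃ c y, E x c y) ∨ (F x).Nonempty := by
    intro x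
    obtain ⟨-, π, hπ0, hπ⟩ := hval1 x
    obtain ⟨y, -, h1, ⟨z, hz⟩, h2, -⟩ := hnext x π hπ0 hπ
    rcases h2 with h2 | ⟨h2, h3⟩
    · exact Or.inr ⟨cons (π.c 0).2 z, Or.inr ⟨hz, y, h1, h2⟩⟩
    · exact Or.inl ⟨(π.c 0).2, y, h1, h2.symm, h3⟩
  -- in the auxiliary game each vertex has a play in its residual
  have hplay : ∀ x : X, HasPlay (gadget X E F htot) (gin htot [] x) (val x).2 := by
    intro x
    obtain ⟨-, π, hπ0, hπ⟩ := hval1 x
    by_contra hno
    have htight : ∀ t, ∃ y : X, y.1 = π.v t ∧ val y = pos A W (val x) π.c t ∧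
        ¬ HasPlay (gadget X E F htot) (gin htot [] y) (val y).2 := by
      intro t
      induction t with
      | zero => exact ⟨x, hπ0.symm, rfl, hno⟩
      | succ t ih =>
        obtain ⟨y, hy1, hy2, hy3⟩ := ih
        have hsh0 : (sh π t).v 0 = y.1 := by
          show π.v (0 + t) = y.1
          rw [Nat.zero_add, hy1]
        have hacc : Acc A W (val y) (sh π t).c := by
          rw [hy2]
          exact hπ.drop t
        obtain ⟨y', h1, h2, h3, h4, h5⟩ := hnext y (sh π t) hsh0 hacc
        have h6 : pos A W (val x) π.c (t + 1) = pos A W (val y) (sh π t).c 1 := by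
          rw [hy2, Nat.add_comm t 1, pos_drop]
        have h7 : ((sh π t).c 0).2 = (π.c t).2 := by
          show (π.c (0 + t)).2 = (π.c t).2
          rw [Nat.zero_add]
        rw [h7] at h2 h3 h4 h5
        rcases h4 with h4 | ⟨h4, h4'⟩
        · -- a drop: exit at `y`
          obtain ⟨z, hz⟩ := h3
          exact absurd (gadget_hasPlay_exit htot (x := y) (z := cons (π.c t).2 z) hz
            (Or.inr ⟨hz, y', h2, h4⟩)) hy3
        · have hE : E y (π.c t).2 y' := ⟨h2, h4.symm, h4'⟩
          by_cases heq : der (π.c t).2 (val y).2 ⊆ (val y').2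
          · have h8 : val y' = (A.upd (val y).1 (π.c t).2, der (π.c t).2 (val y).2) :=
              Prod.ext h4 (Set.Subset.antisymm h4' heq)
            refine ⟨y', ?_, ?_, fun hp => hy3 ?_⟩
            · rw [h1]
              show π.v (1 + t) = π.v (t + 1)
              rw [Nat.add_comm]
            · rw [h6, h5, h8]
            · rw [h8] at hp
              exact HasPlay.step (gadget_edge_move htot hE) hp
          · obtain ⟨z, hz, hz'⟩ := Set.not_subset.1 heq
            exact absurd (HasPlay.step (gadget_edge_move htot hE)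
              (gadget_hasPlay_exit htot (x := y') hz (Or.inl hz'))) hy3
    choose y hy1 hy2 _ using htight
    have hlab : ∀ t, (π.c t).1 = (val (y t)).1 := by
      intro t
      have hsh0 : (sh π t).v 0 = (y t).1 := by
        show π.v (0 + t) = (y t).1
        rw [Nat.zero_add, hy1]
      have hacc : Acc A W (val (y t)) (sh π t).c := by
        rw [hy2]
        exact hπ.drop t
      have h1 := hfirst (y t) (sh π t) hsh0 hacc
      have h2 : (sh π t).c 0 = π.c t := by
        show π.c (0 + t) = π.c t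
        rw [Nat.zero_add]
      rw [h2] at h1
      exact h1
    have hlab' : ∀ t, (π.c t).1 = (pos A W (val x) π.c t).1 := by
      intro t
      rw [← hy2]
      exact hlab t
    have hnx : ∀ t, val (y (t + 1)) =
        (A.upd (val (y t)).1 (π.c t).2, der (π.c t).2 (val (y t)).2) := by
      intro t
      rw [hy2 (t + 1)]
      show (A.upd (π.c t).1 (π.c t).2, der (π.c t).2 (if (π.c t).1 =
        (pos A W (val x) π.c t).1 then (pos A W (val x) π.c t).2 else top A W (π.c t).1)) = _
      rw [if_pos (hlab' t), hlab t, hy2 t]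
    have hy0 : y 0 = x := Subtype.ext ((hy1 0).trans hπ0)
    refine hno ⟨⟨fun t => gin htot [] (y t), fun t => (π.c t).2, fun t => ?_⟩, ?_, ?_⟩
    · refine gadget_edge_move htot ⟨?_, ?_, ?_⟩
      · rw [hy1, hy1]
        have h1 := π.step t
        have h2 : π.c t = ((val (y t)).1, (π.c t).2) := Prod.ext (hlab t) rfl
        rw [h2] at h1
        exact h1
      · rw [hnx]
      · rw [hnx]
    · show gin htot [] (y 0) = gin htot [] x
      rw [hy0]
    · show (fun t => (π.c t).2) ∈ (val x).2
      rcases hπ.2 with h1 | ⟨T, -, hT⟩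
      · obtain ⟨t, ht⟩ := h1.exists
        exact absurd (hlab' t) (ne_of_lt ht)
      · exact (mem_iff_of_consistent T fun t _ => hlab' t).1 hT
  obtain ⟨s, hs, hopt⟩ := hA _ (gadget_onePlayer htot)
  have hstar : ∀ x : X, s.word (gin htot [] x) (val x).1 ∈ (val x).2 := by
    intro x
    have h1 : HasPlay (gadget X E F htot) (gin htot (u x) x) W := by
      refine gadget_hasPlay_enter htot (u x) ?_
      rw [← hu2 x]
      exact hplay x
    have h2 := s.word_mem (gadget_onePlayer htot) hopt (h1.wins (gadget_onePlayer htot))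
    rw [gadget_word_in, hs] at h2
    change pre (u x) (s.word (gin htot [] x) (A.run (u x))) ∈ W at h2
    rw [hu1] at h2
    rw [hu2]
    exact h2
  have hsig : ∀ x : X, ∃ (c : S) (y : X), G.edge x.1 ((val x).1, c) y.1 ∧
      (der c (val x).2).Nonempty ∧ ((val y).1 < A.upd (val x).1 c ∨
        (A.upd (val x).1 c = (val y).1 ∧ (val y).2 ⊆ der c (val x).2 ∧
          s.choice (gin htot [] x) (val x).1 = (c, gin htot [] y))) := by
    intro x
    have h1 := hstar x
    rw [Chromatic.word_eq] at h1
    rcases edge_gin_nil htot (s.legal (gin htot [] x) (val x).1 trivial) with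
      ⟨y, hy, hE⟩ | ⟨z, hz, hF⟩
    · exact ⟨_, y, hE.1, (hne y).mono hE.2.2, Or.inr ⟨hE.2.1, hE.2.2, Prod.ext rfl hy⟩⟩
    · rw [hz, gadget_word_out] at h1
      rcases hF with hF | ⟨-, y, hy1, hy2⟩
      · exact absurd h1 hF
      · exact ⟨_, y, hy1, ⟨z, h1⟩, Or.inl hy2⟩
  choose cc yy hsig1 hsig2 hsig3 using hsig
  have hany : ∀ v : G.V, ∃ e : (Fin k × S) × G.V, G.edge v e.1 e.2 := by
    intro v
    obtain ⟨c, w, h⟩ := G.total v
    exact ⟨(c, w), h⟩
  choose any hany using hany
  let s1 : Chromatic G 1 :=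
    { mem := ⟨0, fun _ _ => 0⟩
      choice := fun v _ => if h : ∃ p, P v p then
        (((val ⟨v, h⟩).1, cc ⟨v, h⟩), (yy ⟨v, h⟩).1) else any v
      legal := by
        intro v m _
        split_ifs with h
        · exact hsig1 ⟨v, h⟩
        · exact hany v }
  refine ⟨s1, fun p hp hf => ?_⟩
  obtain ⟨π₀, hπ₀, hπ₀'⟩ := hp.exists_play hG
  have hx0 : P (p.v 0) (A.start, W) := ⟨reach_start A W, π₀, hπ₀, hπ₀'⟩
  let xs : ℕ → X := fun n => Nat.rec ⟨p.v 0, _, hx0⟩ (fun _ x => yy x) n
  have hxs' : ∀ t, xs (t + 1) = yy (xs t) := fun t => rfl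
  have hfol : ∀ t (x : X), x.1 = p.v t → p.c t = ((val x).1, cc x) ∧ p.v (t + 1) = (yy x).1 := by
    intro t x hx
    have h1 : (p.c t, p.v (t + 1)) = if h : ∃ p', P (p.v t) p' then
        (((val ⟨p.v t, h⟩).1, cc ⟨p.v t, h⟩), (yy ⟨p.v t, h⟩).1) else any (p.v t) :=
      hf t (hG _)
    have h2 : ∃ p', P (p.v t) p' := by
      rw [← hx]
      exact x.2
    rw [dif_pos h2] at h1
    have h3 : (⟨p.v t, h2⟩ : X) = x := Subtype.ext hx.symm
    rw [h3] at h1
    exact ⟨congrArg Prod.fst h1, congrArg Prod.snd h1⟩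
  have hxs : ∀ t, (xs t).1 = p.v t := by
    intro t
    induction t with
    | zero => rfl
    | succ t ih =>
      rw [hxs', (hfol t (xs t) ih).2]
  have hcs : ∀ t, p.c t = ((val (xs t)).1, cc (xs t)) := fun t => (hfol t (xs t) (hxs t)).1
  have hinv : ∀ t, le (val (xs t)) (pos A W (A.start, W) p.c t) ∧
      (pos A W (A.start, W) p.c t).2.Nonempty := by
    intro t
    induction t with
    | zero =>
      refine ⟨hval2 (xs 0) _ hx0, ?_⟩
      exact (hπ₀'.1 0).2
    | succ t ih =>
      obtain ⟨ih1, -⟩ := ih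
      have h1 : pos A W (A.start, W) p.c (t + 1) = (A.upd (val (xs t)).1 (cc (xs t)),
          der (cc (xs t)) (if (val (xs t)).1 = (pos A W (A.start, W) p.c t).1 then
            (pos A W (A.start, W) p.c t).2 else top A W (val (xs t)).1)) := by
        show (A.upd (p.c t).1 (p.c t).2, der (p.c t).2 (if (p.c t).1 =
          (pos A W (A.start, W) p.c t).1 then (pos A W (A.start, W) p.c t).2 else
            top A W (p.c t).1)) = _
        rw [hcs t]
      have h2 : der (cc (xs t)) (val (xs t)).2 ⊆ (pos A W (A.start, W) p.c (t + 1)).2 := by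
        rw [h1]
        refine der_mono ?_
        split_ifs with h3
        · rcases ih1 with h4 | h4
          · exact absurd h3 (ne_of_lt h4)
          · exact h4.2
        · exact (hval1 (xs t)).1.subset_top
      refine ⟨?_, (hsig2 (xs t)).mono h2⟩
      rw [hxs']
      rcases hsig3 (xs t) with h3 | ⟨h3, h4, -⟩
      · left
        rw [h1]
        exact h3
      · right
        refine ⟨?_, h4.trans h2⟩
        rw [h1]
        exact h3.symm
  have hlab : ∀ t, (p.c t).1 = (val (xs t)).1 := fun t => by rw [hcs]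
  refine ⟨fun t => ⟨?_, (hinv t).2⟩, ?_⟩
  · rw [hlab]
    rcases (hinv t).1 with h1 | h1
    · exact h1.le
    · exact h1.1.le
  · by_cases hfr : ∃ᶠ t in atTop, (p.c t).1 < (pos A W (A.start, W) p.c t).1
    · exact Or.inl hfr
    · right
      rw [not_frequently, eventually_atTop] at hfr
      obtain ⟨T, hT⟩ := hfr
      have heq : ∀ t, T ≤ t → (val (xs t)).1 = (pos A W (A.start, W) p.c t).1 ∧
          (val (xs t)).2 ⊆ (pos A W (A.start, W) p.c t).2 := by
        intro t ht
        have h1 := hT t ht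
        rw [hlab] at h1
        rcases (hinv t).1 with h2 | h2
        · exact absurd h2 h1
        · exact h2
      have hcons : ∀ t, T ≤ t →
          s.choice (gin htot [] (xs t)) (val (xs t)).1 = (cc (xs t), gin htot [] (xs (t + 1))) ∧
            A.upd (val (xs t)).1 (cc (xs t)) = (val (xs (t + 1))).1 := by
        intro t ht
        have h1 : (pos A W (A.start, W) p.c (t + 1)).1 = A.upd (val (xs t)).1 (cc (xs t)) := by
          show A.upd (p.c t).1 (p.c t).2 = _
          rw [hcs]
        have h2 := (heq (t + 1) (by omega)).1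
        rw [h1, hxs'] at h2
        rcases hsig3 (xs t) with h3 | ⟨h3, -, h4⟩
        · exact absurd h2 (ne_of_lt h3)
        · exact ⟨h4, by rw [hxs']; exact h3⟩
      have hword : ∀ n t, T ≤ t →
          s.word (gin htot [] (xs t)) (val (xs t)).1 n = cc (xs (n + t)) := by
        intro n
        induction n with
        | zero =>
          intro t ht
          rw [Chromatic.word_eq, (hcons t ht).1, Nat.zero_add]
          rfl
        | succ n ih =>
          intro t ht
          rw [Chromatic.word_eq, (hcons t ht).1, hs]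
          show s.word (gin htot [] (xs (t + 1))) (A.upd (val (xs t)).1 (cc (xs t))) n = _
          rw [(hcons t ht).2, ih (t + 1) (by omega)]
          have h9 : n + (t + 1) = n + 1 + t := by omega
          rw [h9]
      refine ⟨T, fun t ht => by rw [hlab]; exact (heq t ht).1, ?_⟩
      have h1 := hstar (xs T)
      have h2 : s.word (gin htot [] (xs T)) (val (xs T)).1 = fun n => (p.c (n + T)).2 := by
        funext n
        rw [hword n T le_rfl, hcs]
      rw [h2] at h1
      exact (heq T le_rfl).2 h1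

end Pool.Agent.R573.CU
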