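import Pool.Agent.R573.CU.Words

/-!
# One-player games

In a one-player game, winning from a vertex means the existence of a play with its colours in the
objective; a chromatic strategy gives one word for each vertex and memory state.
-/

set_option autoImplicit false

namespace Pool.Agent.R573.CU

open Filter

variable {S : Type} {k : ℕ}

/-- Every legal rule for choosing edges produces a play. -/
theorem exists_play (G : Game S) (x : G.V) (f : List (G.V × S) → G.V → S × G.V)
    (hf : ∀ h v, G.edge v (f h v).1 (f h v).2) :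
    ∃ p : Play G, p.v 0 = x ∧ ∀ n,
      (p.c n, p.v (n + 1)) = f ((List.range n).map fun i => (p.v i, p.c i)) (p.v n) := by
  let st : ℕ → List (G.V × S) × G.V := fun n =>
    Nat.rec ([], x) (fun _ y => (y.1 ++ [(y.2, (f y.1 y.2).1)], (f y.1 y.2).2)) n
  have hst : ∀ n, st (n + 1) =
      ((st n).1 ++ [((st n).2, (f (st n).1 (st n).2).1)], (f (st n).1 (st n).2).2) := fun n => rfl
  let p : Play G :=
    { v := fun n => (st n).2
      c := fun n => (f (st n).1 (st n).2).1
      step := fun n => hf _ _ }
  have hh : ∀ n, (st n).1 = (List.range n).map fun i => (p.v i, p.c i) := by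
    intro n
    induction n with
    | zero => rfl
    | succ n ih =>
      rw [List.range_succ, List.map_append, ← ih, hst]
      rfl
  refine ⟨p, rfl, fun n => ?_⟩
  rw [← hh n]

theorem Wins.exists_play {G : Game S} (hG : OnePlayer G) {W : Set (ℕ → S)} {x : G.V}
    (h : Wins G W x) : ∃ p : Play G, p.v 0 = x ∧ p.c ∈ W := by
  obtain ⟨σ, hσ⟩ := h
  obtain ⟨p, hp0, hp⟩ := CU.exists_play G x σ.move fun h v => σ.legal h v (hG v)
  exact ⟨p, hp0, hσ p hp0 fun n _ => hp n⟩

theorem wins_of_play {G : Game S} (hG : OnePlayer G) {W : Set (ℕ → S)} (p : Play G)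
    (h : p.c ∈ W) : Wins G W (p.v 0) := by
  classical
  have hex : ∀ (n : ℕ) (v : G.V), ∃ e : S × G.V, G.edge v e.1 e.2 ∧
      (v = p.v n → e = (p.c n, p.v (n + 1))) := by
    intro n v
    by_cases hv : v = p.v n
    · exact ⟨(p.c n, p.v (n + 1)), by rw [hv]; exact p.step n, fun _ => rfl⟩
    · obtain ⟨c, w, hcw⟩ := G.total v
      exact ⟨(c, w), hcw, fun h => absurd h hv⟩
  choose e he1 he2 using hex
  refine ⟨⟨fun l v => e l.length v, fun l v _ => he1 _ v⟩, fun q hq0 hq => ?_⟩
  have hstep : ∀ n, (q.c n, q.v (n + 1)) = e n (q.v n) := by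
    intro n
    have h1 := hq n (hG _)
    simp only [List.length_map, List.length_range] at h1
    exact h1
  have hv : ∀ n, q.v n = p.v n := by
    intro n
    induction n with
    | zero => exact hq0
    | succ n ih =>
      have h1 := hstep n
      rw [he2 n _ ih] at h1
      exact congrArg Prod.snd h1
  have hc : q.c = p.c := by
    funext n
    have h1 := hstep n
    rw [he2 n _ (hv n)] at h1
    exact congrArg Prod.fst h1
  rw [hc]
  exact h

/-- There is a play from the vertex with its colours in the set. -/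
def HasPlay (G : Game S) (x : G.V) (q : Set (ℕ → S)) : Prop := ∃ p : Play G, p.v 0 = x ∧ p.c ∈ q

theorem HasPlay.wins {G : Game S} (hG : OnePlayer G) {W : Set (ℕ → S)} {x : G.V}
    (h : HasPlay G x W) : Wins G W x := by
  obtain ⟨p, rfl, hp⟩ := h
  exact wins_of_play hG p hp

theorem HasPlay.step {G : Game S} {q : Set (ℕ → S)} {x y : G.V} {c : S} (he : G.edge x c y)
    (h : HasPlay G y (der c q)) : HasPlay G x q := by
  obtain ⟨p, rfl, hp⟩ := h
  refine ⟨⟨fun n => Nat.casesOn n x p.v, cons c p.c, ?_⟩, rfl, hp⟩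
  rintro (- | n)
  · exact he
  · exact p.step n

/-- One step of a chromatic strategy in a one-player game. -/
def Chromatic.orbStep {G : Game S} (s : Chromatic G k) (x : G.V × Fin k) : G.V × Fin k :=
  ((s.choice x.1 x.2).2, s.mem.upd x.2 (s.choice x.1 x.2).1)

/-- The word produced by the chromatic strategy in a one-player game from a vertex and a memory
state. -/
def Chromatic.word {G : Game S} (s : Chromatic G k) (x : G.V) (m : Fin k) : ℕ → S := fun n =>
  (s.choice (s.orbStep^[n] (x, m)).1 (s.orbStep^[n] (x, m)).2).1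

theorem Chromatic.word_eq {G : Game S} (s : Chromatic G k) (x : G.V) (m : Fin k) :
    s.word x m = cons (s.choice x m).1
      (s.word (s.choice x m).2 (s.mem.upd m (s.choice x m).1)) := by
  funext n
  rcases n with - | n <;> rfl

theorem Chromatic.word_mem {G : Game S} (hG : OnePlayer G) (s : Chromatic G k)
    {W : Set (ℕ → S)} (hs : s.Optimal W) {x : G.V} (hx : Wins G W x) :
    s.word x s.mem.start ∈ W := by
  let p : Play G :=
    { v := fun n => (s.orbStep^[n] (x, s.mem.start)).1
      c := s.word x s.mem.start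
      step := by
        intro n
        rw [Function.iterate_succ_apply']
        exact s.legal _ _ (hG _) }
  have hst : ∀ n, s.mem.state p.c n = (s.orbStep^[n] (x, s.mem.start)).2 := by
    intro n
    induction n with
    | zero => rfl
    | succ n ih =>
      rw [Function.iterate_succ_apply']
      show s.mem.upd (s.mem.state p.c n) (p.c n) = _
      rw [ih]
      rfl
  refine hs p hx fun n _ => ?_
  rw [hst]
  show (_, (s.orbStep^[n + 1] (x, s.mem.start)).1) = _
  rw [Function.iterate_succ_apply']
  rfl

section Gadget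

variable (X : Type) (E : X → S → X → Prop) (F : X → Set (ℕ → S))

/-- The edges of the gadget game. -/
inductive GEdge : (List S × X) ⊕ (ℕ → S) → S → (List S × X) ⊕ (ℕ → S) → Prop
  | enter (a : S) (l : List S) (x : X) : GEdge (Sum.inl (a :: l, x)) a (Sum.inl (l, x))
  | move (x : X) (c : S) (y : X) (h : E x c y) : GEdge (Sum.inl ([], x)) c (Sum.inl ([], y))
  | exit (x : X) (c : S) (z : ℕ → S) (h : cons c z ∈ F x) :
      GEdge (Sum.inl ([], x)) c (Sum.inr z)
  | word (z : ℕ → S) : GEdge (Sum.inr z) (z 0) (Sum.inr (tail z))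

/-- The one-player game with the vertices `X`, the moves `E`, all the entries by finite words and
the exits by the infinite words in `F`. -/
def gadget (h : ∀ x, (∃ c y, E x c y) ∨ (F x).Nonempty) : Game S where
  V := (List S × X) ⊕ (ℕ → S)
  edge := GEdge X E F
  total := by
    rintro (⟨- | ⟨a, l⟩, x⟩ | z)
    · rcases h x with ⟨c, y, hE⟩ | ⟨z, hz⟩
      · exact ⟨c, _, GEdge.move x c y hE⟩
      · refine ⟨z 0, _, GEdge.exit x (z 0) (tail z) ?_⟩
        rw [cons_tail]
        exact hz
    · exact ⟨a, _, GEdge.enter a l x⟩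
    · exact ⟨z 0, _, GEdge.word z⟩
  eve := fun _ => True

variable {X E F} (h : ∀ x, (∃ c y, E x c y) ∨ (F x).Nonempty)

theorem gadget_onePlayer : OnePlayer (gadget X E F h) := fun _ => trivial

/-- The vertex from which the word `u` leads to `x`. -/
def gin (u : List S) (x : X) : (gadget X E F h).V := Sum.inl (u, x)

/-- The vertex from which the word `z` is read. -/
def gout (z : ℕ → S) : (gadget X E F h).V := Sum.inr z

theorem edge_gin_cons {a c : S} {u : List S} {x : X} {w : (gadget X E F h).V}
    (he : (gadget X E F h).edge (gin h (a :: u) x) c w) : c = a ∧ w = gin h u x := by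
  change GEdge X E F (Sum.inl (a :: u, x)) c w at he
  cases he
  exact ⟨rfl, rfl⟩

theorem edge_gin_nil {c : S} {x : X} {w : (gadget X E F h).V}
    (he : (gadget X E F h).edge (gin h [] x) c w) :
    (∃ y, w = gin h [] y ∧ E x c y) ∨ ∃ z, w = gout h z ∧ cons c z ∈ F x := by
  change GEdge X E F (Sum.inl ([], x)) c w at he
  cases he with
  | move x c y hE => exact Or.inl ⟨y, rfl, hE⟩
  | exit x c z hz => exact Or.inr ⟨z, rfl, hz⟩

theorem edge_gout {c : S} {z : ℕ → S} {w : (gadget X E F h).V}
    (he : (gadget X E F h).edge (gout h z) c w) : c = z 0 ∧ w = gout h (tail z) := by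
  change GEdge X E F (Sum.inr z) c w at he
  cases he
  exact ⟨rfl, rfl⟩

theorem gadget_word_out (s : Chromatic (gadget X E F h) k) (z : ℕ → S) (m : Fin k) :
    s.word (gout h z) m = z := by
  funext n
  induction n generalizing z m with
  | zero =>
    rw [Chromatic.word_eq]
    exact (edge_gout h (s.legal (gout h z) m trivial)).1
  | succ n ih =>
    have h2 := (edge_gout h (s.legal (gout h z) m trivial)).2
    rw [Chromatic.word_eq, h2]
    exact ih _ _

theorem gadget_word_in (s : Chromatic (gadget X E F h) k) (u : List S) (x : X) (m : Fin k) :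
    s.word (gin h u x) m = pre u (s.word (gin h [] x) (u.foldl s.mem.upd m)) := by
  induction u generalizing m with
  | nil => rfl
  | cons a u ih =>
    obtain ⟨h1, h2⟩ := edge_gin_cons h (s.legal (gin h (a :: u) x) m trivial)
    rw [Chromatic.word_eq, h1, h2, ih]
    rfl

theorem gadget_hasPlay_out {z : ℕ → S} {q : Set (ℕ → S)} (hz : z ∈ q) :
    HasPlay (gadget X E F h) (gout h z) q := by
  refine ⟨⟨fun n => gout h (drop n z), z, fun n => ?_⟩, rfl, hz⟩
  have h1 : GEdge X E F (Sum.inr (drop n z)) (drop n z 0) (Sum.inr (tail (drop n z))) :=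
    GEdge.word _
  have h2 : drop n z 0 = z n := by
    show z (0 + n) = z n
    rw [Nat.zero_add]
  have h3 : tail (drop n z) = drop (n + 1) z := by
    funext i
    show z (i + 1 + n) = z (i + (n + 1))
    congr 1
    omega
  rw [h2, h3] at h1
  exact h1

theorem gadget_edge_exit {x : X} {z : ℕ → S} (hF : z ∈ F x) :
    (gadget X E F h).edge (gin h [] x) (z 0) (gout h (tail z)) :=
  GEdge.exit x (z 0) (tail z) (by rw [cons_tail]; exact hF)

theorem gadget_edge_move {x y : X} {c : S} (hE : E x c y) :
    (gadget X E F h).edge (gin h [] x) c (gin h [] y) :=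
  GEdge.move x c y hE

theorem gadget_hasPlay_exit {x : X} {z : ℕ → S} {q : Set (ℕ → S)} (hz : z ∈ q) (hF : z ∈ F x) :
    HasPlay (gadget X E F h) (gin h [] x) q := by
  refine HasPlay.step (gadget_edge_exit h hF) (gadget_hasPlay_out h ?_)
  show cons (z 0) (tail z) ∈ q
  rw [cons_tail]
  exact hz

theorem gadget_hasPlay_enter {x : X} (u : List S) {q : Set (ℕ → S)}
    (hp : HasPlay (gadget X E F h) (gin h [] x) (resid q u)) :
    HasPlay (gadget X E F h) (gin h u x) q := by
  induction u generalizing q with
  | nil => exact hp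
  | cons a u ih =>
    have h1 : (gadget X E F h).edge (gin h (a :: u) x) a (gin h u x) := GEdge.enter a u x
    exact HasPlay.step h1 (ih hp)

end Gadget

/-- The residuals with the same memory state form a chain, if the memory works for the one-player
games. -/
theorem chain {W : Set (ℕ → S)} {A : Memory S k} (hA : Works OnePlayer W A) {u₁ u₂ : List S}
    (hu : A.run u₁ = A.run u₂) : resid W u₁ ⊆ resid W u₂ ∨ resid W u₂ ⊆ resid W u₁ := by
  by_contra hcon
  push Not at hcon
  obtain ⟨h1, h2⟩ := hcon
  obtain ⟨z₁, hz₁, hz₁'⟩ := Set.not_subset.1 h1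
  obtain ⟨z₂, hz₂, hz₂'⟩ := Set.not_subset.1 h2
  have htot : ∀ x : Unit, (∃ (c : S) (y : Unit), (fun _ _ _ => False : Unit → S → Unit → Prop)
      x c y) ∨ ((fun _ => {z₁, z₂} : Unit → Set (ℕ → S)) x).Nonempty :=
    fun _ => Or.inr ⟨z₁, Or.inl rfl⟩
  obtain ⟨s, hs, hopt⟩ := hA _ (gadget_onePlayer htot)
  have hw₁ := s.word_mem (gadget_onePlayer htot) hopt
    (HasPlay.wins (gadget_onePlayer htot) (gadget_hasPlay_enter htot (x := ()) u₁
      (gadget_hasPlay_exit htot hz₁ (Or.inl rfl))))
  have hw₂ := s.word_mem (gadget_onePlayer htot) hopt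
    (HasPlay.wins (gadget_onePlayer htot) (gadget_hasPlay_enter htot (x := ()) u₂
      (gadget_hasPlay_exit htot hz₂ (Or.inr rfl))))
  rw [gadget_word_in, hs] at hw₁ hw₂
  change pre u₁ (s.word _ (A.run u₁)) ∈ W at hw₁
  change pre u₂ (s.word _ (A.run u₂)) ∈ W at hw₂
  rw [← hu] at hw₂
  rw [Chromatic.word_eq] at hw₁ hw₂
  rcases edge_gin_nil htot (s.legal (gin htot [] ()) (A.run u₁) trivial) with
    ⟨y, -, hE⟩ | ⟨z, hz, hF⟩
  · exact hE
  · rw [hz, gadget_word_out] at hw₁ hw₂
    rcases hF with hF | hF
    · rw [hF] at hw₂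
      exact hz₁' hw₂
    · rw [Set.mem_singleton_iff.1 hF] at hw₁
      exact hz₂' hw₁

end Pool.Agent.R573.CU
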