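import Pool.Agent.R573.CU.OneP

/-!
# From positional strategies for the lifted objective to strategies with the memory `A`
-/

set_option autoImplicit false

namespace Pool.Agent.R573.CU

open Filter

variable {S : Type} {k : ℕ} {W : Set (ℕ → S)} {A : Memory S k}

theorem acc_iff_of_consistent {w : ℕ → Fin k × S} (h0 : (w 0).1 = A.start)
    (h1 : ∀ t, (w (t + 1)).1 = A.upd (w t).1 (w t).2) :
    w ∈ lifted A W ↔ (fun n => (w n).2) ∈ W := by
  have hlab : ∀ t, (w t).1 = (pos A W (A.start, W) w t).1 := by
    intro t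
    rcases t with - | t
    · exact h0
    · rw [h1]
      rfl
  have hmem : ∀ T, (fun n => (w (n + T)).2) ∈ (pos A W (A.start, W) w T).2 ↔
      (fun n => (w n).2) ∈ W := fun T =>
    mem_iff_of_consistent (p := (A.start, W)) T fun t _ => hlab t
  constructor
  · rintro ⟨-, h2 | ⟨T, -, hT⟩⟩
    · obtain ⟨t, ht⟩ := h2.exists
      exact absurd (hlab t) (ne_of_lt ht)
    · exact (hmem T).1 hT
  · intro h
    exact ⟨fun t => ⟨(hlab t).le, _, (hmem t).2 h⟩, Or.inr ⟨0, fun t _ => hlab t, h⟩⟩

/-- The product of a game with a memory; the colours show the memory states. -/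
def product (G : Game S) (A : Memory S k) : Game (Fin k × S) where
  V := G.V × Fin k
  edge := fun x a y => a.1 = x.2 ∧ G.edge x.1 a.2 y.1 ∧ y.2 = A.upd x.2 a.2
  total := by
    rintro ⟨v, m⟩
    obtain ⟨c, w, h⟩ := G.total v
    exact ⟨(m, c), (w, A.upd m c), rfl, h, rfl⟩
  eve := fun x => G.eve x.1

theorem works_of_lifted (h : Suffices AllGames (lifted A W) 1) : Works AllGames W A := by
  intro G _
  obtain ⟨s1, hs1⟩ := h (product G A) trivial
  let s : Chromatic G k :=
    { mem := A
      choice := fun v m => ((s1.choice (v, m) 0).1.2, (s1.choice (v, m) 0).2.1)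
      legal := fun v m hv => (s1.legal (v, m) 0 hv).2.1 }
  refine ⟨s, rfl, fun p hp hf => ?_⟩
  let q : Play (product G A) :=
    { v := fun t => (p.v t, A.state p.c t)
      c := fun t => (A.state p.c t, p.c t)
      step := fun t => ⟨rfl, p.step t, rfl⟩ }
  have hqW : q.c ∈ lifted A W ↔ p.c ∈ W := acc_iff_of_consistent rfl fun t => rfl
  rw [← hqW]
  refine hs1 q ?_ fun n hn => ?_
  · obtain ⟨σ, hσ⟩ := hp
    refine ⟨⟨fun l x =>
      ((x.2, (σ.move (l.map fun a => (a.1.1, a.2.2)) x.1).1),
        ((σ.move (l.map fun a => (a.1.1, a.2.2)) x.1).2,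
          A.upd x.2 (σ.move (l.map fun a => (a.1.1, a.2.2)) x.1).1)),
      fun l x hx => ⟨rfl, σ.legal _ _ hx, rfl⟩⟩, fun r hr hrf => ?_⟩
    let r' : Play G :=
      { v := fun t => (r.v t).1
        c := fun t => (r.c t).2
        step := fun t => (r.step t).2.1 }
    have h1 : r'.c ∈ W := by
      refine hσ r' ?_ fun n hn => ?_
      · show (r.v 0).1 = p.v 0
        rw [hr]
      · have h2 := hrf n hn
        have h3 : (r.c n).2 = _ := congrArg (fun e => e.1.2) h2
        have h4 : (r.v (n + 1)).1 = _ := congrArg (fun e => e.2.1) h2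
        refine Prod.ext ?_ ?_
        · show (r.c n).2 = _
          rw [h3]
          show (σ.move (List.map _ (List.map _ _)) _).1 = (σ.move _ _).1
          rw [List.map_map]
          rfl
        · show (r.v (n + 1)).1 = _
          rw [h4]
          show (σ.move (List.map _ (List.map _ _)) _).2 = (σ.move _ _).2
          rw [List.map_map]
          rfl
    refine (acc_iff_of_consistent ?_ fun t => ?_).2 h1
    · rw [(r.step 0).1, hr]
      rfl
    · rw [(r.step (t + 1)).1, (r.step t).2.2, ← (r.step t).1]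
  · have h1 : (p.c n, p.v (n + 1)) = ((s1.choice (p.v n, A.state p.c n) 0).1.2,
        (s1.choice (p.v n, A.state p.c n) 0).2.1) := hf n hn
    have h2 : s1.mem.state q.c n = 0 := Subsingleton.elim _ _
    rw [h2]
    have h3 := s1.legal (p.v n, A.state p.c n) 0 hn
    have h4 : p.c n = (s1.choice (p.v n, A.state p.c n) 0).1.2 := congrArg Prod.fst h1
    have h5 : p.v (n + 1) = (s1.choice (p.v n, A.state p.c n) 0).2.1 := congrArg Prod.snd h1
    refine Prod.ext (Prod.ext ?_ ?_) (Prod.ext ?_ ?_)
    · exact h3.1.symm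
    · exact h4
    · exact h5
    · show A.upd (A.state p.c n) (p.c n) = _
      rw [h4]
      exact h3.2.2.symm

end Pool.Agent.R573.CU
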