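import Pool.Agent.R573.CU.OneP

/-!
# One memory for all the one-player games

By a disjoint union, if `k` states suffice for all the one-player games, then there is one memory
with `k` states which works for all of them.
-/

set_option autoImplicit false

namespace Pool.Agent.R573.CU

variable {S : Type} {k : ℕ}

/-- The disjoint union of a family of games. -/
def union {I : Type} (G : I → Game S) : Game S where
  V := Σ i, (G i).V
  edge := fun x c y => ∃ (i : I) (v w : (G i).V), x = ⟨i, v⟩ ∧ y = ⟨i, w⟩ ∧ (G i).edge v c w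
  total := by
    rintro ⟨i, v⟩
    obtain ⟨c, w, h⟩ := (G i).total v
    exact ⟨c, ⟨i, w⟩, i, v, w, rfl, rfl, h⟩
  eve := fun _ => True

theorem union_edge {I : Type} {G : I → Game S} {i : I} {v : (G i).V} {c : S}
    {y : (union G).V} (h : (union G).edge ⟨i, v⟩ c y) :
    ∃ w : (G i).V, y = ⟨i, w⟩ ∧ (G i).edge v c w := by
  obtain ⟨j, v', w, h1, h2, h3⟩ := h
  cases h1
  exact ⟨w, h2, h3⟩

/-- The play in the union of games. -/
def unionPlay {I : Type} {G : I → Game S} {i : I} (p : Play (G i)) : Play (union G) where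
  v := fun n => ⟨i, p.v n⟩
  c := p.c
  step := fun n => ⟨i, p.v n, p.v (n + 1), rfl, rfl, p.step n⟩

theorem exists_works {W : Set (ℕ → S)} (h : Suffices OnePlayer W k) :
    ∃ A : Memory S k, Works OnePlayer W A := by
  by_contra hcon
  push Not at hcon
  have h1 : ∀ A : Memory S k, ∃ G : Game S, OnePlayer G ∧
      ∀ s : Chromatic G k, s.mem = A → ¬ s.Optimal W := by
    intro A
    by_contra h2
    push Not at h2
    exact hcon A fun G hG => h2 G hG
  choose G hG hG' using h1
  obtain ⟨s, hs⟩ := h (union G) fun _ => trivial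
  have h2 : ∀ (v : (G s.mem).V) (m : Fin k), ∃ e : S × (G s.mem).V,
      (G s.mem).edge v e.1 e.2 ∧ s.choice ⟨s.mem, v⟩ m = (e.1, ⟨s.mem, e.2⟩) := by
    intro v m
    obtain ⟨w, hw, he⟩ := union_edge (s.legal ⟨s.mem, v⟩ m trivial)
    exact ⟨((s.choice ⟨s.mem, v⟩ m).1, w), he, Prod.ext rfl hw⟩
  choose e he1 he2 using h2
  refine hG' s.mem ⟨s.mem, e, fun v m _ => he1 v m⟩ rfl fun p hp hf => ?_
  obtain ⟨p', hp'0, hp'⟩ := hp.exists_play (hG s.mem)
  refine hs (unionPlay p) ?_ fun n _ => ?_
  · have h3 := wins_of_play (G := union G) (fun _ => trivial) (unionPlay p') hp'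
    have h4 : (unionPlay p').v 0 = (unionPlay p).v 0 := by
      show (⟨s.mem, p'.v 0⟩ : Σ i, (G i).V) = ⟨s.mem, p.v 0⟩
      rw [hp'0]
    rw [← h4]
    exact h3
  · have h5 := hf n (hG _ _)
    have h6 : e (p.v n) (s.mem.state p.c n) = (p.c n, p.v (n + 1)) := h5.symm
    have h7 := he2 (p.v n) (s.mem.state p.c n)
    rw [h6] at h7
    exact h7.symm

end Pool.Agent.R573.CU
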