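import Pool.Agent.R573.CU.Defs

/-!
# Words, residuals and the lifted objective

For an objective `W` and a chromatic memory `A` with the linearly ordered set of states `Fin k` we
define the lifted objective over the alphabet `Fin k × S`. A position is a pair of a memory state
and a residual of `W`. The letters carry the memory state which the reader claims; a claim below the
true state (a drop) is allowed and moves to the largest residual with the claimed state.
-/

set_option autoImplicit false

namespace Pool.Agent.R573.CU

open Filter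

variable {S : Type}

/-- Put a letter in front of an infinite word. -/
def cons (c : S) (z : ℕ → S) : ℕ → S
  | 0 => c
  | n + 1 => z n

/-- Remove the first letter. -/
def tail (z : ℕ → S) : ℕ → S := fun n => z (n + 1)

/-- Remove the first `t` letters. -/
def drop (t : ℕ) (z : ℕ → S) : ℕ → S := fun n => z (n + t)

/-- Put a finite word in front of an infinite word. -/
def pre : List S → (ℕ → S) → (ℕ → S)
  | [], z => z
  | a :: u, z => cons a (pre u z)

theorem cons_tail (z : ℕ → S) : cons (z 0) (tail z) = z := by
  funext n
  rcases n with - | n <;> rfl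

theorem tail_cons (c : S) (z : ℕ → S) : tail (cons c z) = z := rfl

theorem pre_append (u : List S) (c : S) (z : ℕ → S) : pre (u ++ [c]) z = pre u (cons c z) := by
  induction u with
  | nil => rfl
  | cons a u ih =>
    show cons a (pre (u ++ [c]) z) = cons a (pre u (cons c z))
    rw [ih]

/-- The derivative of a set of infinite words by a letter. -/
def der (c : S) (q : Set (ℕ → S)) : Set (ℕ → S) := {z | cons c z ∈ q}

theorem der_mono {c : S} {q r : Set (ℕ → S)} (h : q ⊆ r) : der c q ⊆ der c r := fun _ hz => h hz

/-- The residual of a set of infinite words by a finite word. -/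
def resid (W : Set (ℕ → S)) (u : List S) : Set (ℕ → S) := {z | pre u z ∈ W}

theorem der_resid (W : Set (ℕ → S)) (u : List S) (c : S) :
    der c (resid W u) = resid W (u ++ [c]) := by
  ext z
  show pre u (cons c z) ∈ W ↔ pre (u ++ [c]) z ∈ W
  rw [pre_append]

variable {k : ℕ}

/-- The state of the memory after a finite word. -/
def Memory.run (A : Memory S k) (u : List S) : Fin k := u.foldl A.upd A.start

theorem Memory.run_append (A : Memory S k) (u : List S) (c : S) :
    A.run (u ++ [c]) = A.upd (A.run u) c := by
  rw [Memory.run, List.foldl_append]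
  rfl

/-- The position is reachable. -/
def Reach (A : Memory S k) (W : Set (ℕ → S)) (p : Fin k × Set (ℕ → S)) : Prop :=
  ∃ u : List S, A.run u = p.1 ∧ p.2 = resid W u

theorem reach_start (A : Memory S k) (W : Set (ℕ → S)) : Reach A W (A.start, W) := ⟨[], rfl, rfl⟩

/-- The union of the residuals with a given memory state. -/
def top (A : Memory S k) (W : Set (ℕ → S)) (m : Fin k) : Set (ℕ → S) :=
  {z | ∃ u : List S, A.run u = m ∧ pre u z ∈ W}

theorem Reach.subset_top {A : Memory S k} {W : Set (ℕ → S)} {p : Fin k × Set (ℕ → S)}
    (h : Reach A W p) : p.2 ⊆ top A W p.1 := by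
  obtain ⟨u, hu, hp⟩ := h
  intro z hz
  rw [hp] at hz
  exact ⟨u, hu, hz⟩

/-- The new position after a letter: if the claimed state is the true one, then the residual is
followed, otherwise we move to the largest residual with the claimed state. -/
noncomputable def next (A : Memory S k) (W : Set (ℕ → S)) (p : Fin k × Set (ℕ → S))
    (a : Fin k × S) : Fin k × Set (ℕ → S) :=
  (A.upd a.1 a.2, der a.2 (if a.1 = p.1 then p.2 else top A W a.1))

/-- The positions along an infinite word. -/
noncomputable def pos (A : Memory S k) (W : Set (ℕ → S)) (p : Fin k × Set (ℕ → S))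
    (w : ℕ → Fin k × S) : ℕ → Fin k × Set (ℕ → S)
  | 0 => p
  | n + 1 => next A W (pos A W p w n) (w n)

/-- The word is accepted from the position `p`: no claimed state is above the true one, the residual
never becomes empty, and there are infinitely many drops or, after the last drop, the remaining
word lies in the residual. -/
def Acc (A : Memory S k) (W : Set (ℕ → S)) (p : Fin k × Set (ℕ → S)) (w : ℕ → Fin k × S) : Prop :=
  (∀ t, (w t).1 ≤ (pos A W p w t).1 ∧ (pos A W p w t).2.Nonempty) ∧
    ((∃ᶠ t in atTop, (w t).1 < (pos A W p w t).1) ∨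
      ∃ T, (∀ t, T ≤ t → (w t).1 = (pos A W p w t).1) ∧
        (fun n => (w (n + T)).2) ∈ (pos A W p w T).2)

/-- The lifted objective. -/
def lifted (A : Memory S k) (W : Set (ℕ → S)) : Set (ℕ → Fin k × S) := {w | Acc A W (A.start, W) w}

theorem pos_succ (A : Memory S k) (W : Set (ℕ → S)) (p : Fin k × Set (ℕ → S))
    (w : ℕ → Fin k × S) (n : ℕ) :
    pos A W p w (n + 1) = pos A W (next A W p (w 0)) (tail w) n := by
  induction n with
  | zero => rfl
  | succ n ih =>
    show next A W (pos A W p w (n + 1)) (w (n + 1)) = next A W (pos A W _ (tail w) n) (tail w n)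
    rw [ih]
    rfl

theorem pos_drop (A : Memory S k) (W : Set (ℕ → S)) (p : Fin k × Set (ℕ → S))
    (w : ℕ → Fin k × S) (t n : ℕ) :
    pos A W p w (n + t) = pos A W (pos A W p w t) (drop t w) n := by
  induction n with
  | zero => rw [Nat.zero_add]; rfl
  | succ n ih =>
    rw [Nat.add_right_comm]
    show next A W (pos A W p w (n + t)) (w (n + t)) =
      next A W (pos A W (pos A W p w t) (drop t w) n) (drop t w n)
    rw [ih]
    rfl

theorem Acc.drop {A : Memory S k} {W : Set (ℕ → S)} {p : Fin k × Set (ℕ → S)}
    {w : ℕ → Fin k × S} (h : Acc A W p w) (t : ℕ) : Acc A W (pos A W p w t) (drop t w) := by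
  obtain ⟨h1, h2⟩ := h
  refine ⟨fun n => ?_, ?_⟩
  · rw [← pos_drop]
    exact h1 (n + t)
  · rcases h2 with h2 | ⟨T, hT, hT'⟩
    · left
      rw [frequently_atTop] at h2 ⊢
      intro N
      obtain ⟨n, hn, hlt⟩ := h2 (N + t)
      obtain ⟨m, rfl⟩ : ∃ m, n = m + t := ⟨n - t, by omega⟩
      refine ⟨m, by omega, ?_⟩
      rw [← pos_drop]
      exact hlt
    · right
      -- consistent labels: the membership in the residual moves forward
      have key : ∀ d, (fun n => (w (n + (T + d))).2) ∈ (pos A W p w (T + d)).2 := by
        intro d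
        induction d with
        | zero => exact hT'
        | succ d ih =>
          show _ ∈ (next A W (pos A W p w (T + d)) (w (T + d))).2
          show _ ∈ der (w (T + d)).2 (if (w (T + d)).1 = (pos A W p w (T + d)).1 then
            (pos A W p w (T + d)).2 else top A W (w (T + d)).1)
          rw [if_pos (hT (T + d) (by omega))]
          show cons _ _ ∈ (pos A W p w (T + d)).2
          have h3 : cons (w (T + d)).2 (fun n => (w (n + (T + (d + 1)))).2) =
              fun n => (w (n + (T + d))).2 := by
            funext n
            rcases n with - | n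
            · show (w (T + d)).2 = (w (0 + (T + d))).2
              rw [Nat.zero_add]
            · show (w (n + (T + (d + 1)))).2 = (w (n + 1 + (T + d))).2
              congr 2
              omega
          rw [h3]
          exact ih
      refine ⟨T, fun n hn => ?_, ?_⟩
      · rw [← pos_drop]
        exact hT (n + t) (by omega)
      · rw [← pos_drop]
        have := key t
        show (fun n => (w (n + T + t)).2) ∈ _
        have h4 : (fun n => (w (n + T + t)).2) = fun n => (w (n + (T + t))).2 := by
          funext n
          rw [Nat.add_assoc]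
        rw [h4]
        exact this

/-- With consistent labels up to the time `T`, the membership in the residuals is preserved. -/
theorem mem_iff_of_consistent {A : Memory S k} {W : Set (ℕ → S)} {p : Fin k × Set (ℕ → S)}
    {w : ℕ → Fin k × S} (T : ℕ) (h : ∀ t, t < T → (w t).1 = (pos A W p w t).1) :
    (fun n => (w (n + T)).2) ∈ (pos A W p w T).2 ↔ (fun n => (w n).2) ∈ p.2 := by
  induction T with
  | zero => rfl
  | succ T ih =>
    rw [← ih fun t ht => h t (by omega)]
    show _ ∈ der (w T).2 (if (w T).1 = (pos A W p w T).1 then
            (pos A W p w T).2 else top A W (w T).1) ↔ _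
    rw [if_pos (h T (by omega))]
    show cons _ _ ∈ (pos A W p w T).2 ↔ _
    have h3 : cons (w T).2 (fun n => (w (n + (T + 1))).2) = fun n => (w (n + T)).2 := by
      funext n
      rcases n with - | n
      · show (w T).2 = (w (0 + T)).2
        rw [Nat.zero_add]
      · show (w (n + (T + 1))).2 = (w (n + 1 + T)).2
        congr 2
        omega
    rw [h3]

/-- If the first letter is a drop, then the word is also accepted from the top of the claimed
state. -/
theorem Acc.of_drop {A : Memory S k} {W : Set (ℕ → S)} {p : Fin k × Set (ℕ → S)}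
    {w : ℕ → Fin k × S} (h : Acc A W p w) (hlt : (w 0).1 < p.1) :
    (top A W (w 0).1).Nonempty ∧ Acc A W ((w 0).1, top A W (w 0).1) w := by
  obtain ⟨h1, h2⟩ := h
  have hn : next A W ((w 0).1, top A W (w 0).1) (w 0) = next A W p (w 0) := by
    show (A.upd (w 0).1 (w 0).2, der (w 0).2 (if (w 0).1 = (w 0).1 then top A W (w 0).1 else
      top A W (w 0).1)) = (A.upd (w 0).1 (w 0).2, der (w 0).2 (if (w 0).1 = p.1 then p.2 else
      top A W (w 0).1))
    rw [if_pos rfl, if_neg (ne_of_lt hlt)]
  have hpos : ∀ t, pos A W ((w 0).1, top A W (w 0).1) w (t + 1) = pos A W p w (t + 1) := by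
    intro t
    rw [pos_succ, pos_succ, hn]
  have hne : (top A W (w 0).1).Nonempty := by
    obtain ⟨z, hz⟩ := (h1 1).2
    refine ⟨cons (w 0).2 z, ?_⟩
    have h3 : (pos A W p w 1).2 = der (w 0).2 (if (w 0).1 = p.1 then p.2 else
      top A W (w 0).1) := rfl
    rw [h3, if_neg (ne_of_lt hlt)] at hz
    exact hz
  refine ⟨hne, fun t => ?_, ?_⟩
  · rcases t with - | t
    · exact ⟨le_rfl, hne⟩
    · rw [hpos]
      exact h1 (t + 1)
  · rcases h2 with h2 | ⟨T, hT, hT'⟩
    · left
      rw [frequently_atTop] at h2 ⊢
      intro N
      obtain ⟨n, hn, hlt⟩ := h2 (N + 1)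
      obtain ⟨m, rfl⟩ : ∃ m, n = m + 1 := ⟨n - 1, by omega⟩
      refine ⟨m + 1, by omega, ?_⟩
      rw [hpos]
      exact hlt
    · right
      rcases T with - | T
      · exact absurd (hT 0 le_rfl) (ne_of_lt hlt)
      · refine ⟨T + 1, fun t ht => ?_, ?_⟩
        · obtain ⟨m, rfl⟩ : ∃ m, t = m + 1 := ⟨t - 1, by omega⟩
          rw [hpos]
          exact hT _ ht
        · rw [hpos]
          exact hT'

/-- The order of the positions. -/
def le (p q : Fin k × Set (ℕ → S)) : Prop := p.1 < q.1 ∨ (p.1 = q.1 ∧ p.2 ⊆ q.2)

end Pool.Agent.R573.CU
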